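import Mathlib

set_option autoImplicit false

/-!
# The Jacobian rank can be smaller than the analytic spread in characteristic two

For graphs `G`, `H` let `J_{G,H}` be generated by the binomials
`x_{i,k} x_{j,l} - x_{i,l} x_{j,k}` with `{i,j}` an edge of `G` and `{k,l}` an edge of `H`.
For `G = H = K_3` and a field of characteristic two, the rank of the Jacobian matrix of the
generators is at most `8`, because the Euler vector is in its kernel, while the analytic spread
of `J_{G,H}` is at least `9`, because the nine `2 × 2` minors of the generic `3 × 3` matrix are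
algebraically independent over every field.
-/

namespace Pool.Agent.Results.MP_188fab_co.JacobianRankCharTwo

open MvPolynomial

universe u

/-- The pairs (edge `{i,j}` of `G`, edge `{k,l}` of `H`), with `i < j` and `k < l`. -/
def EdgePairs {n m : ℕ} (G : SimpleGraph (Fin n)) (H : SimpleGraph (Fin m)) : Type :=
  {e : (Fin n × Fin n) × (Fin m × Fin m) //
    (e.1.1 < e.1.2 ∧ G.Adj e.1.1 e.1.2) ∧ (e.2.1 < e.2.2 ∧ H.Adj e.2.1 e.2.2)}

instance {n m : ℕ} (G : SimpleGraph (Fin n)) (H : SimpleGraph (Fin m)) :
    Finite (EdgePairs G H) := by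
  unfold EdgePairs
  infer_instance

/-- The binomial `x_{i,k} x_{j,l} - x_{i,l} x_{j,k}` of a pair of edges `{i,j}`, `{k,l}`. -/
noncomputable def binomialOf (F : Type*) [Field F] {n m : ℕ}
    (e : (Fin n × Fin n) × (Fin m × Fin m)) : MvPolynomial (Fin n × Fin m) F :=
  X (e.1.1, e.2.1) * X (e.1.2, e.2.2) - X (e.1.1, e.2.2) * X (e.1.2, e.2.1)

/-- The ideal `J_{G,H}`. -/
noncomputable def idealJ (F : Type*) [Field F] {n m : ℕ} (G : SimpleGraph (Fin n))
    (H : SimpleGraph (Fin m)) : Ideal (MvPolynomial (Fin n × Fin m) F) :=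
  Ideal.span (Set.range (fun e : EdgePairs G H => binomialOf F e.1))

/-- The Jacobian matrix of the generators of `J_{G,H}` over the rational function field. -/
noncomputable def jacobian (F : Type*) [Field F] {n m : ℕ} (G : SimpleGraph (Fin n))
    (H : SimpleGraph (Fin m)) :
    Matrix (EdgePairs G H) (Fin n × Fin m) (FractionRing (MvPolynomial (Fin n × Fin m) F)) :=
  fun e p => algebraMap (MvPolynomial (Fin n × Fin m) F)
    (FractionRing (MvPolynomial (Fin n × Fin m) F)) (pderiv p (binomialOf F e.1))

/-- The analytic spread of an ideal `I` of a polynomial ring: the Krull dimension of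
`R[It] / 𝔪 R[It] = ⨁ I^t / 𝔪 I^t`, where `𝔪` is the ideal generated by the variables. -/
noncomputable def analyticSpread {σ F : Type*} [Field F] (I : Ideal (MvPolynomial σ F)) :
    WithBot ℕ∞ :=
  ringKrullDim (reesAlgebra I ⧸
    (Ideal.span (Set.range (X : σ → MvPolynomial σ F))).map
      (algebraMap (MvPolynomial σ F) (reesAlgebra I)))

/-! ### A lower bound for the analytic spread -/

section spread

variable {σ ι F : Type*} [Field F]

lemma homogeneousComponent_mul_of_isHomogeneous (p q : MvPolynomial σ F) (n : ℕ)
    (hq : q.IsHomogeneous n) :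
    homogeneousComponent n (p * q) = C (constantCoeff p) * q := by
  classical
  have hp : p = ∑ i ∈ Finset.range (p.totalDegree + 1), homogeneousComponent i p :=
    (sum_homogeneousComponent p).symm
  conv_lhs => rw [hp, Finset.sum_mul, map_sum]
  rw [Finset.sum_eq_single 0]
  · rw [homogeneousComponent_zero]
    have h1 : (C (coeff 0 p) * q).IsHomogeneous n := by
      have := hq.C_mul (coeff 0 p)
      exact this
    rw [homogeneousComponent_of_mem h1, if_pos rfl]
    rfl
  · intro i _ hi
    have h1 : (homogeneousComponent i p * q).IsHomogeneous (i + n) :=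
      (homogeneousComponent_isHomogeneous i p).mul hq
    rw [homogeneousComponent_of_mem h1, if_neg]
    omega
  · intro h
    exact absurd (Finset.mem_range.mpr (Nat.succ_pos _)) h

/-- If the generators `g i` of `J` are homogeneous of the same degree and algebraically
independent, then the analytic spread is at least the number of generators. -/
lemma card_le_analyticSpread [Finite σ] [Finite ι] (g : ι → MvPolynomial σ F) (d : ℕ)
    (hg : ∀ i, (g i).IsHomogeneous d) (hind : AlgebraicIndependent F g) :
    (Nat.card ι : WithBot ℕ∞) ≤ analyticSpread (Ideal.span (Set.range g)) := by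
  classical
  set J : Ideal (MvPolynomial σ F) := Ideal.span (Set.range g) with hJ
  -- the map onto the Rees algebra
  have hmem : ∀ i, Polynomial.monomial 1 (g i) ∈ reesAlgebra J := by
    intro i
    rw [reesAlgebra.monomial_mem, pow_one]
    exact Ideal.subset_span ⟨i, rfl⟩
  let α : MvPolynomial ι (MvPolynomial σ F) →ₐ[MvPolynomial σ F] reesAlgebra J :=
    aeval (fun i => ⟨Polynomial.monomial 1 (g i), hmem i⟩)
  let A : MvPolynomial ι (MvPolynomial σ F) →ₐ[MvPolynomial σ F] Polynomial (MvPolynomial σ F) :=
    aeval (fun i => Polynomial.monomial 1 (g i))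
  have hA : ∀ P, ((α P : reesAlgebra J) : Polynomial (MvPolynomial σ F)) = A P := by
    intro P
    have : (reesAlgebra J).val.comp α = A := by
      ext i
      simp [α, A]
    exact DFunLike.congr_fun this P
  have hαsurj : Function.Surjective α := by
    have hle : reesAlgebra J ≤ A.range := by
      rw [← adjoin_monomial_eq_reesAlgebra]
      refine Algebra.adjoin_le ?_
      rintro _ ⟨r, hr, rfl⟩
      change Polynomial.monomial 1 r ∈ A.range
      have hr' : r ∈ Ideal.span (Set.range g) := hr
      induction hr' using Submodule.span_induction with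
      | mem x hx =>
        obtain ⟨i, rfl⟩ := hx
        exact ⟨X i, by simp [A]⟩
      | zero => simp
      | add x y hx hy h1 h2 =>
        rw [map_add]
        exact A.range.add_mem (h1 hx) (h2 hy)
      | smul a x hx h1 =>
        rw [← Polynomial.smul_monomial]
        exact A.range.smul_mem (h1 hx) a
    intro y
    obtain ⟨P, hP⟩ := hle y.2
    refine ⟨P, Subtype.ext ?_⟩
    rw [hA]
    exact hP
  -- reduction modulo the variables
  let β : MvPolynomial ι (MvPolynomial σ F) →+* MvPolynomial ι F := MvPolynomial.map constantCoeff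
  have hβsurj : Function.Surjective β := by
    intro q
    refine ⟨MvPolynomial.map C q, ?_⟩
    simp only [β, MvPolynomial.map_map]
    have : (constantCoeff (σ := σ) (R := F)).comp C = RingHom.id F := by
      ext x
      simp
    rw [this]
    exact MvPolynomial.map_id q
  have hker : RingHom.ker (α : MvPolynomial ι (MvPolynomial σ F) →+* reesAlgebra J) ≤
      RingHom.ker β := by
    intro P hP
    rw [RingHom.mem_ker] at hP ⊢
    have hAP : A P = 0 := by
      rw [← hA]
      have : α P = 0 := hP
      rw [this]
      rfl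
    ext a0
    change coeff a0 (MvPolynomial.map (constantCoeff (σ := σ) (R := F)) P) = _
    rw [coeff_map, coeff_zero]
    -- total degree of a multi-index
    set D := a0.degree with hD
    have hexp : A P = ∑ a ∈ P.support,
        Polynomial.monomial a.degree (coeff a P * ∏ i ∈ a.support, g i ^ a i) := by
      simp only [A]
      rw [aeval_def, eval₂_eq]
      refine Finset.sum_congr rfl ?_
      intro a _
      have h0 : ∀ s : Finset ι, ∏ i ∈ s, (Polynomial.monomial 1 (g i)) ^ a i =
          Polynomial.monomial (∑ i ∈ s, a i) (∏ i ∈ s, g i ^ a i) := by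
        intro s
        induction s using Finset.induction_on with
        | empty => simp
        | insert i s hi ih =>
          rw [Finset.prod_insert hi, ih, Polynomial.monomial_pow, one_mul,
            Polynomial.monomial_mul_monomial, Finset.prod_insert hi, Finset.sum_insert hi]
      have h1 : ∏ i ∈ a.support, (Polynomial.monomial 1 (g i)) ^ a i =
          Polynomial.monomial a.degree (∏ i ∈ a.support, g i ^ a i) := h0 a.support
      rw [h1, ← Polynomial.C_eq_algebraMap, Polynomial.C_mul_monomial]
    have hcoef : ∑ a ∈ P.support with a.degree = D,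
        coeff a P * ∏ i ∈ a.support, g i ^ a i = 0 := by
      have h1 := congrArg (fun f => Polynomial.coeff f D) (hexp.symm.trans hAP)
      simp only [Polynomial.finsetSum_coeff, Polynomial.coeff_monomial,
        Polynomial.coeff_zero] at h1
      rw [Finset.sum_filter]
      exact h1
    have hhom : ∀ a : ι →₀ ℕ, (∏ i ∈ a.support, g i ^ a i).IsHomogeneous (d * a.degree) := by
      intro a
      have := IsHomogeneous.prod a.support (fun i => g i ^ a i) (fun i => d * a i)
        (fun i _ => (hg i).pow (a i))
      rwa [← Finset.mul_sum] at this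
    have hcoef2 : ∑ a ∈ P.support with a.degree = D,
        C (constantCoeff (coeff a P)) * ∏ i ∈ a.support, g i ^ a i = 0 := by
      have h1 := congrArg (homogeneousComponent (d * D)) hcoef
      rw [map_sum, map_zero] at h1
      rw [← h1]
      refine Finset.sum_congr rfl ?_
      intro a ha
      have ha' : a.degree = D := (Finset.mem_filter.mp ha).2
      rw [homogeneousComponent_mul_of_isHomogeneous]
      rw [← ha']
      exact hhom a
    let Q : MvPolynomial ι F := ∑ a ∈ P.support with a.degree = D,
      monomial a (constantCoeff (coeff a P))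
    have hQ : aeval g Q = 0 := by
      simp only [Q, map_sum, aeval_monomial]
      rw [← hcoef2]
      refine Finset.sum_congr rfl ?_
      intro a _
      rw [algebraMap_eq]
      rfl
    have hQ0 : Q = 0 := hind.eq_zero_of_aeval_eq_zero Q hQ
    have h2 : coeff a0 Q = 0 := by rw [hQ0, coeff_zero]
    by_cases ha0 : a0 ∈ P.support
    · have hmem0 : a0 ∈ P.support.filter (fun a => a.degree = D) :=
        Finset.mem_filter.mpr ⟨ha0, rfl⟩
      have h3 : coeff a0 Q = constantCoeff (coeff a0 P) := by
        simp only [Q, coeff_sum]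
        rw [Finset.sum_eq_single_of_mem a0 hmem0]
        · rw [coeff_monomial, if_pos rfl]
        · intro b _ hb
          rw [coeff_monomial, if_neg hb]
      rw [← h3, h2]
    · rw [notMem_support_iff.mp ha0, map_zero]
  let γ : reesAlgebra J →+* MvPolynomial ι F :=
    RingHom.liftOfSurjective (α : MvPolynomial ι (MvPolynomial σ F) →+* reesAlgebra J) hαsurj
      ⟨β, hker⟩
  have hγ : ∀ P, γ (α P) = β P := by
    intro P
    exact RingHom.liftOfRightInverse_comp_apply _ _ _ ⟨β, hker⟩ P
  have hγsurj : Function.Surjective γ := by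
    intro q
    obtain ⟨P, hP⟩ := hβsurj q
    exact ⟨α P, by rw [hγ, hP]⟩
  have hkill : (Ideal.span (Set.range (X : σ → MvPolynomial σ F))).map
      (algebraMap (MvPolynomial σ F) (reesAlgebra J)) ≤ RingHom.ker γ := by
    rw [Ideal.map_span, Ideal.span_le]
    rintro _ ⟨_, ⟨s, rfl⟩, rfl⟩
    change γ _ = 0
    have h1 : algebraMap (MvPolynomial σ F) (reesAlgebra J) (X s) = α (C (X s)) := by
      rw [← algebraMap_eq, AlgHom.commutes]
    rw [h1, hγ]
    simp [β]
  have hfinal : ringKrullDim (MvPolynomial ι F) ≤ analyticSpread (Ideal.span (Set.range g)) :=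
    ringKrullDim_le_of_surjective (Ideal.Quotient.lift
      ((Ideal.span (Set.range (X : σ → MvPolynomial σ F))).map
        (algebraMap (MvPolynomial σ F) (reesAlgebra J))) γ hkill)
    (Ideal.Quotient.lift_surjective_of_surjective _ hkill hγsurj)
  rw [MvPolynomial.ringKrullDim_of_isNoetherianRing, ringKrullDim_eq_zero_of_field,
    zero_add] at hfinal
  exact hfinal

end spread

/-! ### The nine minors of the generic `3 × 3` matrix are algebraically independent -/

section minors

variable {F : Type*} [Field F]

/-- Substituting `D * X p` for `X p`, with `D ≠ 0` homogeneous, is injective. -/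
lemma aeval_mul_X_injective {σ : Type*} (D : MvPolynomial σ F) (hD : D ≠ 0) {m : ℕ}
    (hDm : D.IsHomogeneous m) :
    Function.Injective (aeval (R := F) (fun p : σ => D * X p)) := by
  classical
  rw [injective_iff_map_eq_zero]
  intro P hP
  have hhom : ∀ (n : ℕ) (Q : MvPolynomial σ F), Q.IsHomogeneous n →
      aeval (R := F) (fun p : σ => D * X p) Q = D ^ n * Q := by
    intro n Q hQ
    conv_rhs => rw [← support_sum_monomial_coeff Q]
    conv_lhs => rw [← support_sum_monomial_coeff Q]
    rw [map_sum, Finset.mul_sum]
    refine Finset.sum_congr rfl ?_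
    intro a ha
    have hdeg : a.degree = n := by
      rw [Finsupp.degree_eq_weight_one]
      exact hQ (mem_support_iff.mp ha)
    rw [aeval_monomial, monomial_eq, ← algebraMap_eq]
    have h1 : (a.prod fun i k => (D * X i) ^ k) = D ^ n * a.prod fun i k => (X i) ^ k := by
      rw [← hdeg]
      simp only [Finsupp.prod, mul_pow, Finset.prod_mul_distrib]
      rw [Finset.prod_pow_eq_pow_sum]
      rfl
    rw [h1]
    ring
  have hsum : P = ∑ i ∈ Finset.range (P.totalDegree + 1), homogeneousComponent i P :=
    (sum_homogeneousComponent P).symm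
  have hcomp : ∀ n, homogeneousComponent n P = 0 := by
    intro n
    by_cases hn : n ∈ Finset.range (P.totalDegree + 1)
    · have h1 := congrArg (homogeneousComponent ((m + 1) * n)) hP
      rw [hsum, map_sum, map_sum, map_zero] at h1
      rw [Finset.sum_eq_single_of_mem n hn] at h1
      · rw [hhom n _ (homogeneousComponent_isHomogeneous n P)] at h1
        have h2 : (D ^ n * homogeneousComponent n P).IsHomogeneous ((m + 1) * n) := by
          have := (hDm.pow n).mul (homogeneousComponent_isHomogeneous n P)
          have h3 : m * n + n = (m + 1) * n := by ring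
          rwa [h3] at this
        rw [homogeneousComponent_of_mem h2, if_pos rfl] at h1
        exact (mul_eq_zero.mp h1).resolve_left (pow_ne_zero _ hD)
      · intro b _ hb
        rw [hhom b _ (homogeneousComponent_isHomogeneous b P)]
        have h2 : (D ^ b * homogeneousComponent b P).IsHomogeneous ((m + 1) * b) := by
          have := (hDm.pow b).mul (homogeneousComponent_isHomogeneous b P)
          have h3 : m * b + b = (m + 1) * b := by ring
          rwa [h3] at this
        rw [homogeneousComponent_of_mem h2, if_neg]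
        intro h
        exact hb (Nat.eq_of_mul_eq_mul_left (Nat.succ_pos m) h.symm)
    · have : P.totalDegree < n := by
        simpa [Finset.mem_range] using hn
      exact homogeneousComponent_eq_zero _ _ this
  rw [hsum]
  exact Finset.sum_eq_zero (fun i _ => hcomp i)

/-- The generic `3 × 3` matrix. -/
noncomputable abbrev genM (F : Type*) [Field F] :
    Matrix (Fin 3) (Fin 3) (MvPolynomial (Fin 3 × Fin 3) F) :=
  Matrix.mvPolynomialX (Fin 3) (Fin 3) F

lemma det_genM_isHomogeneous : (genM F).det.IsHomogeneous 3 := by
  rw [Matrix.det_fin_three]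
  have h : ∀ p, (X p : MvPolynomial (Fin 3 × Fin 3) F).IsHomogeneous 1 :=
    fun p => isHomogeneous_X F p
  have h3 : ∀ p q r, (X p * X q * X r : MvPolynomial (Fin 3 × Fin 3) F).IsHomogeneous 3 :=
    fun p q r => ((h p).mul (h q)).mul (h r)
  simp only [genM, Matrix.mvPolynomialX_apply]
  exact (((((h3 _ _ _).sub (h3 _ _ _)).sub (h3 _ _ _)).add (h3 _ _ _)).add (h3 _ _ _)).sub
    (h3 _ _ _)

/-- The nine entries of the adjugate of the generic `3 × 3` matrix are algebraically
independent over any field. -/
lemma algebraicIndependent_adjugate :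
    AlgebraicIndependent F (fun p : Fin 3 × Fin 3 => (genM F).adjugate p.1 p.2) := by
  rw [algebraicIndependent_iff_injective_aeval]
  set ε : MvPolynomial (Fin 3 × Fin 3) F →ₐ[F] MvPolynomial (Fin 3 × Fin 3) F :=
    aeval (fun p : Fin 3 × Fin 3 => (genM F).adjugate p.1 p.2) with hε
  have h1 : ε.mapMatrix (genM F) = (genM F).adjugate :=
    Matrix.mvPolynomialX_mapMatrix_aeval F _
  have h2 : ε.mapMatrix (genM F).adjugate = (genM F).det • genM F := by
    rw [AlgHom.map_adjugate, h1, Matrix.adjugate_adjugate' (genM F)]
    simp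
  have h3 : ε.comp ε = aeval (R := F) (fun p : Fin 3 × Fin 3 => (genM F).det * X p) := by
    refine MvPolynomial.algHom_ext (fun p => ?_)
    have h4 : (ε.mapMatrix (genM F).adjugate) p.1 p.2 = ((genM F).det • genM F) p.1 p.2 := by
      rw [h2]
    simp only [AlgHom.comp_apply, aeval_X]
    rw [hε, aeval_X, ← hε]
    simpa [AlgHom.mapMatrix_apply, Matrix.map_apply] using h4
  have h5 : Function.Injective (ε.comp ε) := by
    rw [h3]
    exact aeval_mul_X_injective _ (Matrix.det_mvPolynomialX_ne_zero (Fin 3) F)
      det_genM_isHomogeneous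
  have h6 : Function.Injective (ε ∘ ε) := h5
  exact h6.of_comp

end minors

/-! ### Characteristic two -/

section charTwo

variable (F : Type u) [Field F]

/-- The complementary index of a pair `i < j` in `Fin 3`. -/
def third (i j : Fin 3) : Fin 3 := - (i + j)

lemma binomialOf_eq_adjugate [CharP F 2] (e : EdgePairs (⊤ : SimpleGraph (Fin 3))
    (⊤ : SimpleGraph (Fin 3))) :
    binomialOf F e.1 =
      (genM F).adjugate (third e.1.2.1 e.1.2.2) (third e.1.1.1 e.1.1.2) := by
  have hneg : ∀ a : MvPolynomial (Fin 3 × Fin 3) F, -a = a := fun a => by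
    have h2 : (2 : MvPolynomial (Fin 3 × Fin 3) F) = 0 := CharTwo.two_eq_zero
    have : a + a = 0 := by rw [← two_mul, h2, zero_mul]
    exact neg_eq_of_add_eq_zero_left this
  obtain ⟨⟨⟨i, j⟩, ⟨k, l⟩⟩, ⟨hij, _⟩, ⟨hkl, _⟩⟩ := e
  simp only at hij hkl
  rw [Matrix.adjugate_fin_three]
  fin_cases i <;> fin_cases j <;> simp at hij <;> fin_cases k <;> fin_cases l <;>
    simp at hkl <;> simp [binomialOf, third, genM, sub_eq_add_neg, hneg]

lemma third_injective : Function.Injective
    (fun e : EdgePairs (⊤ : SimpleGraph (Fin 3)) (⊤ : SimpleGraph (Fin 3)) =>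
      ((third e.1.2.1 e.1.2.2, third e.1.1.1 e.1.1.2) : Fin 3 × Fin 3)) := by
  rintro ⟨⟨⟨i, j⟩, ⟨k, l⟩⟩, ⟨hij, _⟩, ⟨hkl, _⟩⟩ ⟨⟨⟨i', j'⟩, ⟨k', l'⟩⟩, ⟨hij', _⟩, ⟨hkl', _⟩⟩ h
  simp only [Prod.mk.injEq] at h hij hkl hij' hkl'
  obtain ⟨h1, h2⟩ := h
  have key : ∀ a b c d : Fin 3, a < b → c < d → third a b = third c d → a = c ∧ b = d := by
    unfold third
    decide
  obtain ⟨ha, hb⟩ := key _ _ _ _ hkl hkl' h1
  obtain ⟨hc, hd⟩ := key _ _ _ _ hij hij' h2
  subst ha hb hc hd
  rfl

/-- The number of generators of `J_{K_3,K_3}` is nine. -/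
lemma card_edgePairs :
    Nat.card (EdgePairs (⊤ : SimpleGraph (Fin 3)) (⊤ : SimpleGraph (Fin 3))) = 9 := by
  unfold EdgePairs
  rw [Nat.card_eq_fintype_card]
  decide

lemma algebraicIndependent_binomialOf [CharP F 2] :
    AlgebraicIndependent F
      (fun e : EdgePairs (⊤ : SimpleGraph (Fin 3)) (⊤ : SimpleGraph (Fin 3)) =>
        binomialOf F e.1) := by
  have h := (algebraicIndependent_adjugate (F := F)).comp _ third_injective
  have h2 : (fun e : EdgePairs (⊤ : SimpleGraph (Fin 3)) (⊤ : SimpleGraph (Fin 3)) =>
        binomialOf F e.1) = (fun p : Fin 3 × Fin 3 => (genM F).adjugate p.1 p.2) ∘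
      (fun e : EdgePairs (⊤ : SimpleGraph (Fin 3)) (⊤ : SimpleGraph (Fin 3)) =>
      ((third e.1.2.1 e.1.2.2, third e.1.1.1 e.1.1.2) : Fin 3 × Fin 3)) := by
    funext e
    exact binomialOf_eq_adjugate F e
  rw [h2]
  exact h

lemma binomialOf_isHomogeneous {n m : ℕ} (e : (Fin n × Fin n) × (Fin m × Fin m)) :
    (binomialOf F e).IsHomogeneous 2 := by
  unfold binomialOf
  exact ((isHomogeneous_X F _).mul (isHomogeneous_X F _)).sub
    ((isHomogeneous_X F _).mul (isHomogeneous_X F _))

/-- The analytic spread of `J_{K_3,K_3}` is at least nine in characteristic two. -/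
lemma nine_le_analyticSpread [CharP F 2] :
    (9 : WithBot ℕ∞) ≤
      analyticSpread (idealJ F (⊤ : SimpleGraph (Fin 3)) (⊤ : SimpleGraph (Fin 3))) := by
  have h := card_le_analyticSpread
    (fun e : EdgePairs (⊤ : SimpleGraph (Fin 3)) (⊤ : SimpleGraph (Fin 3)) => binomialOf F e.1)
    2 (fun e => binomialOf_isHomogeneous F e.1) (algebraicIndependent_binomialOf F)
  rw [card_edgePairs] at h
  exact h

/-- In characteristic two the Euler vector is in the kernel of every Jacobian matrix, so its
rank is less than the number of variables. -/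
lemma rank_jacobian_lt [CharP F 2] {n m : ℕ} (hn : 0 < n) (hm : 0 < m)
    (G : SimpleGraph (Fin n)) (H : SimpleGraph (Fin m)) :
    (jacobian F G H).rank < n * m := by
  classical
  have : Fintype (EdgePairs G H) := Fintype.ofFinite _
  set K := FractionRing (MvPolynomial (Fin n × Fin m) F) with hK
  let v : Fin n × Fin m → K := fun p => algebraMap (MvPolynomial (Fin n × Fin m) F) K (X p)
  have hv : v ≠ 0 := by
    intro h
    have h1 := congrFun h (⟨0, hn⟩, ⟨0, hm⟩)
    simp only [v, Pi.zero_apply] at h1
    rw [FaithfulSMul.algebraMap_eq_zero_iff] at h1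
    exact X_ne_zero _ h1
  have hmul : (jacobian F G H).mulVec v = 0 := by
    funext e
    simp only [Matrix.mulVec, dotProduct, jacobian, v, Pi.zero_apply]
    have h1 := (binomialOf_isHomogeneous F e.1).sum_X_mul_pderiv
    have h2 : (2 : ℕ) • binomialOf F e.1 = 0 := by
      rw [nsmul_eq_mul]
      have : ((2 : ℕ) : MvPolynomial (Fin n × Fin m) F) = 0 := CharP.cast_eq_zero _ 2
      rw [this, zero_mul]
    rw [h2] at h1
    have h3 := congrArg (algebraMap (MvPolynomial (Fin n × Fin m) F) K) h1
    rw [map_sum, map_zero] at h3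
    rw [← h3]
    refine Finset.sum_congr rfl ?_
    intro p _
    rw [map_mul, mul_comm]
  have hrn := LinearMap.finrank_range_add_finrank_ker (jacobian F G H).mulVecLin
  rw [Module.finrank_fintype_fun_eq_card, Fintype.card_prod, Fintype.card_fin,
    Fintype.card_fin] at hrn
  have hker : 0 < Module.finrank (FractionRing (MvPolynomial (Fin n × Fin m) F))
      (LinearMap.ker (jacobian F G H).mulVecLin) := by
    rw [Module.finrank_pos_iff]
    refine ⟨⟨⟨v, ?_⟩, 0, ?_⟩⟩
    · rw [LinearMap.mem_ker, Matrix.mulVecLin_apply]
      exact hmul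
    · intro h
      exact hv (congrArg Subtype.val h)
  rw [Matrix.rank]
  omega

end charTwo

/-- **Part (b) of the question fails in characteristic two.** For every field `F` of
characteristic two and `G = H = K_3`, the rank of the Jacobian matrix `𝓗(G,H)` is strictly
smaller than the analytic spread of the ideal `J_{G,H}`. -/
theorem result (F : Type u) [Field F] [CharP F 2] :
    (((jacobian F (⊤ : SimpleGraph (Fin 3)) (⊤ : SimpleGraph (Fin 3))).rank : ℕ) :
        WithBot ℕ∞) <
      analyticSpread (idealJ F (⊤ : SimpleGraph (Fin 3)) (⊤ : SimpleGraph (Fin 3))) := by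
  refine lt_of_lt_of_le ?_ (nine_le_analyticSpread F)
  have h := rank_jacobian_lt F (n := 3) (m := 3) (by norm_num) (by norm_num)
    (⊤ : SimpleGraph (Fin 3)) (⊤ : SimpleGraph (Fin 3))
  exact_mod_cast h

end Pool.Agent.Results.MP_188fab_co.JacobianRankCharTwo
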