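import Mathlib

set_option autoImplicit false

/-!
# Algebraic matroids of quadratic forms in characteristic two need not be representable

Over any field `F` of characteristic two we consider fourteen quadratic forms in four variables:
the ten monomials `x_i x_j` and the four squares
`(x_0+x_1)²`, `(x_0+x_2)²`, `(x_1+x_2)²`, `(x_0+x_1+x_2)²`.
The squares `x_0², x_1², x_2²` together with the last four form a Fano plane, which is
representable only in characteristic two; the ten monomials form a matroid which is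
representable only in characteristic different from two.
-/

namespace Pool.Agent.Results.MP_188fab_co.QuadricsNotRepresentable

open MvPolynomial

universe u v w

/-! ### Algebraic independence of monomials -/

lemma algInd_monomial {σ ι F : Type*} [Field F] (e : ι → (σ →₀ ℕ))
    (he : Function.Injective (fun a : ι →₀ ℕ => a.sum (fun i n => n • e i))) :
    AlgebraicIndependent F (fun i => (monomial (e i) (1 : F) : MvPolynomial σ F)) := by
  classical
  rw [algebraicIndependent_iff]
  intro p hp
  set φ : (ι →₀ ℕ) → (σ →₀ ℕ) := fun a => a.sum (fun i n => n • e i) with hφ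
  have hsum : aeval (fun i => (monomial (e i) (1 : F) : MvPolynomial σ F)) p =
      ∑ b ∈ p.support, monomial (φ b) (coeff b p) := by
    rw [aeval_def, eval₂_eq]
    refine Finset.sum_congr rfl ?_
    intro b _
    have h1 : ∏ i ∈ b.support, (monomial (e i) (1 : F) : MvPolynomial σ F) ^ b i =
        monomial (φ b) 1 := by
      simp only [monomial_pow, one_pow]
      exact (monomial_sum_one b.support (fun i => b i • e i)).symm
    rw [h1, algebraMap_eq, C_mul_monomial, mul_one]
  rw [hsum] at hp
  ext a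
  rw [coeff_zero]
  by_cases ha : a ∈ p.support
  · have h2 := congrArg (coeff (φ a)) hp
    rw [coeff_sum, coeff_zero] at h2
    rw [Finset.sum_eq_single a] at h2
    · simpa using h2
    · intro b _ hba
      rw [coeff_monomial, if_neg]
      intro h
      exact hba (he h)
    · intro h
      exact absurd ha h
  · simpa [mem_support_iff] using ha

/-- The fourteen quadratic forms. -/
noncomputable def g (F : Type*) [Field F] : Fin 14 → MvPolynomial (Fin 4) F :=
  ![X 0 ^ 2, X 1 ^ 2, X 2 ^ 2, X 3 ^ 2,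
    X 0 * X 1, X 0 * X 2, X 0 * X 3, X 1 * X 2, X 1 * X 3, X 2 * X 3,
    (X 0 + X 1) ^ 2, (X 0 + X 2) ^ 2, (X 1 + X 2) ^ 2, (X 0 + X 1 + X 2) ^ 2]

section algebra

variable (F : Type*) [Field F]

lemma ind_squares : AlgebraicIndependent F
    (fun i : Fin 4 => (X i ^ 2 : MvPolynomial (Fin 4) F)) := by
  have h := algInd_monomial (F := F) (σ := Fin 4) (ι := Fin 4)
    (fun i => Finsupp.single i 2) ?_
  · have : (fun i : Fin 4 => (X i ^ 2 : MvPolynomial (Fin 4) F)) =
        fun i => monomial (Finsupp.single i 2) (1 : F) := by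
      funext i
      rw [X_pow_eq_monomial]
    rw [this]
    exact h
  · intro a b hab
    ext j
    have := DFunLike.congr_fun hab j
    simp only [Finsupp.sum_fintype, zero_smul, implies_true, Finsupp.coe_finsetSum,
      Finset.sum_apply, Finsupp.smul_apply, Finsupp.single_apply, smul_eq_mul, mul_ite,
      mul_zero, Finset.sum_ite_eq', Finset.mem_univ, if_true] at this
    omega

lemma ind_pair (i j : Fin 4) (hij : i ≠ j) : AlgebraicIndependent F
    (![X i ^ 2, X i * X j] : Fin 2 → MvPolynomial (Fin 4) F) := by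
  have h := algInd_monomial (F := F) (σ := Fin 4) (ι := Fin 2)
    (![Finsupp.single i 2, Finsupp.single i 1 + Finsupp.single j 1]) ?_
  · have : (![X i ^ 2, X i * X j] : Fin 2 → MvPolynomial (Fin 4) F) =
        fun k => monomial (![Finsupp.single i 2, Finsupp.single i 1 + Finsupp.single j 1] k)
          (1 : F) := by
      funext k
      fin_cases k
      · simp [X_pow_eq_monomial]
      · simp [X, monomial_mul]
    rw [this]
    exact h
  · intro a b hab
    have hj := DFunLike.congr_fun hab j
    have hi := DFunLike.congr_fun hab i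
    simp [Finsupp.sum_fintype, Fin.sum_univ_two, hij, hij.symm] at hi hj
    ext k
    fin_cases k
    · simp; omega
    · simpa using hj

lemma ind_triangle : AlgebraicIndependent F
    (![X 0 * X 1, X 1 * X 2, X 0 * X 2] : Fin 3 → MvPolynomial (Fin 4) F) := by
  have h := algInd_monomial (F := F) (σ := Fin 4) (ι := Fin 3)
    (![Finsupp.single 0 1 + Finsupp.single 1 1, Finsupp.single 1 1 + Finsupp.single 2 1,
      Finsupp.single 0 1 + Finsupp.single 2 1]) ?_
  · have : (![X 0 * X 1, X 1 * X 2, X 0 * X 2] : Fin 3 → MvPolynomial (Fin 4) F) =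
        fun k => monomial (![Finsupp.single 0 1 + Finsupp.single 1 1,
          Finsupp.single 1 1 + Finsupp.single 2 1,
          Finsupp.single 0 1 + Finsupp.single 2 1] k) (1 : F) := by
      funext k
      fin_cases k <;> simp [X, monomial_mul]
    rw [this]
    exact h
  · intro a b hab
    have h0 := DFunLike.congr_fun hab 0
    have h1 := DFunLike.congr_fun hab 1
    have h2 := DFunLike.congr_fun hab 2
    simp [Finsupp.sum_fintype, Fin.sum_univ_three] at h0 h1 h2
    ext k
    fin_cases k
    · simp; omega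
    · simp; omega
    · simp; omega

/-- Independence of `X i ^ 2` and `(X i + X j) ^ 2`. -/
lemma ind_sum (i j : Fin 4) (hij : i ≠ j) : AlgebraicIndependent F
    (![X i ^ 2, (X i + X j) ^ 2] : Fin 2 → MvPolynomial (Fin 4) F) := by
  let φ : MvPolynomial (Fin 4) F →ₐ[F] MvPolynomial (Fin 4) F :=
    aeval (fun k => if k = j then X j - X i else X k)
  refine AlgebraicIndependent.of_comp φ ?_
  have h : φ ∘ (![X i ^ 2, (X i + X j) ^ 2] : Fin 2 → MvPolynomial (Fin 4) F) =
      (fun k : Fin 4 => (X k ^ 2 : MvPolynomial (Fin 4) F)) ∘ ![i, j] := by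
    funext k
    fin_cases k
    · simp [φ, hij]
    · simp [φ, hij]
  rw [h]
  refine (ind_squares F).comp _ ?_
  intro a b hab
  fin_cases a <;> fin_cases b <;> simp_all

lemma ind_three : AlgebraicIndependent F
    (![(X 0 + X 1 + X 2) ^ 2] : Fin 1 → MvPolynomial (Fin 4) F) := by
  let φ : MvPolynomial (Fin 4) F →ₐ[F] MvPolynomial (Fin 4) F :=
    aeval (fun k => if k = 0 then X 0 - X 1 - X 2 else X k)
  refine AlgebraicIndependent.of_comp φ ?_
  have h : φ ∘ (![(X 0 + X 1 + X 2) ^ 2] : Fin 1 → MvPolynomial (Fin 4) F) =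
      (fun k : Fin 4 => (X k ^ 2 : MvPolynomial (Fin 4) F)) ∘ ![0] := by
    funext k
    fin_cases k
    simp [φ]
    ring
  rw [h]
  refine (ind_squares F).comp _ ?_
  intro a b hab
  exact Subsingleton.elim a b

/-- Independence of `(X i + X j) ^ 2` and `X k ^ 2`. -/
lemma ind_sum' (i j k : Fin 4) (hij : i ≠ j) (hik : i ≠ k) : AlgebraicIndependent F
    (![(X i + X j) ^ 2, X k ^ 2] : Fin 2 → MvPolynomial (Fin 4) F) := by
  let φ : MvPolynomial (Fin 4) F →ₐ[F] MvPolynomial (Fin 4) F :=
    aeval (fun l => if l = i then X i - X j else X l)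
  refine AlgebraicIndependent.of_comp φ ?_
  have h : φ ∘ (![(X i + X j) ^ 2, X k ^ 2] : Fin 2 → MvPolynomial (Fin 4) F) =
      (fun l : Fin 4 => (X l ^ 2 : MvPolynomial (Fin 4) F)) ∘ ![i, k] := by
    funext l
    fin_cases l
    · simp [φ, hij.symm]
    · simp [φ, hik.symm]
  rw [h]
  refine (ind_squares F).comp _ ?_
  intro a b hab
  fin_cases a <;> fin_cases b <;> simp_all

/-- A nontrivial polynomial relation shows dependence. -/
lemma not_algInd {A : Type*} [CommRing A] [Algebra F A] {k : ℕ} (x : Fin k → A)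
    (p : MvPolynomial (Fin k) F) (hp : p ≠ 0) (h : aeval x p = 0) :
    ¬ AlgebraicIndependent F x := by
  intro hx
  exact hp (hx.eq_zero_of_aeval_eq_zero p h)

end algebra

/-! ### Linear algebra -/

section linear

variable {K W : Type*} [Field K] [AddCommGroup W] [Module K W]

/-- A vector on the line through two points, different from both. -/
lemma exists_coeff (a b c : W) (hab : LinearIndependent K ![a, b])
    (hac : LinearIndependent K ![a, c]) (hbc : LinearIndependent K ![b, c])
    (habc : ¬ LinearIndependent K ![a, b, c]) :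
    ∃ s t : K, s ≠ 0 ∧ t ≠ 0 ∧ c = s • a + t • b := by
  rw [Fintype.not_linearIndependent_iff] at habc
  obtain ⟨r, hr, i, hi⟩ := habc
  rw [Fin.sum_univ_three] at hr
  simp only [Matrix.cons_val_zero, Matrix.cons_val_one, Matrix.cons_val] at hr
  rw [LinearIndependent.pair_iff] at hab hac hbc
  have h2 : r 2 ≠ 0 := by
    intro h2
    rw [h2, zero_smul, add_zero] at hr
    have := hab _ _ hr
    fin_cases i
    · exact hi this.1
    · exact hi this.2
    · exact hi h2
  have h1 : r 1 ≠ 0 := by
    intro h1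
    rw [h1, zero_smul, add_zero] at hr
    exact h2 (hac _ _ hr).2
  have h0 : r 0 ≠ 0 := by
    intro h0
    rw [h0, zero_smul, zero_add] at hr
    exact h2 (hbc _ _ hr).2
  refine ⟨-(r 2)⁻¹ * r 0, -(r 2)⁻¹ * r 1, ?_, ?_, ?_⟩
  · simp [h2, h0]
  · simp [h2, h1]
  · have h3 : (r 2) • c = -(r 0 • a) - (r 1 • b) := by
      rw [← sub_eq_zero, ← hr]; abel
    calc c = (r 2)⁻¹ • (r 2) • c := by rw [smul_smul, inv_mul_cancel₀ h2, one_smul]
      _ = _ := by
        rw [h3, smul_sub, smul_neg, smul_smul, smul_smul]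
        simp only [neg_mul, neg_smul]
        abel

/-- The cyclic relation expressing that the four edge vectors of a 4-cycle are dependent. -/
lemma four_cycle (v1 v2 v3 v4 : W) (hv : LinearIndependent K ![v1, v2, v3, v4])
    (a1 b1 a2 b2 a3 b3 a4 b4 : K) (hb3 : b3 ≠ 0) (hb4 : b4 ≠ 0) (ha2 : a2 ≠ 0)
    (hdep : ¬ LinearIndependent K ![a1 • v1 + b1 • v2, a2 • v2 + b2 • v3, a3 • v3 + b3 • v4,
      a4 • v4 + b4 • v1]) :
    a1 * a2 * a3 * a4 = b1 * b2 * b3 * b4 := by
  rw [Fintype.not_linearIndependent_iff] at hdep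
  obtain ⟨r, hr, i, hi⟩ := hdep
  rw [Fin.sum_univ_four] at hr
  simp only [Matrix.cons_val_zero, Matrix.cons_val_one, Matrix.cons_val] at hr
  rw [Fintype.linearIndependent_iff] at hv
  have h := hv ![r 0 * a1 + r 3 * b4, r 0 * b1 + r 1 * a2, r 1 * b2 + r 2 * a3,
    r 2 * b3 + r 3 * a4] (by
      rw [Fin.sum_univ_four]
      simp only [Matrix.cons_val_zero, Matrix.cons_val_one, Matrix.cons_val]
      rw [← hr]
      module)
  have e0 : r 0 * a1 + r 3 * b4 = 0 := by simpa using h 0
  have e1 : r 0 * b1 + r 1 * a2 = 0 := by simpa using h 1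
  have e2 : r 1 * b2 + r 2 * a3 = 0 := by simpa using h 2
  have e3 : r 2 * b3 + r 3 * a4 = 0 := by simpa using h 3
  have hr0 : r 0 ≠ 0 := by
    intro h0
    have h3 : r 3 = 0 := by
      rw [h0, zero_mul, zero_add] at e0
      exact (mul_eq_zero.mp e0).resolve_right hb4
    have h1 : r 1 = 0 := by
      rw [h0, zero_mul, zero_add] at e1
      exact (mul_eq_zero.mp e1).resolve_right ha2
    have h2 : r 2 = 0 := by
      rw [h3, zero_mul, add_zero] at e3
      exact (mul_eq_zero.mp e3).resolve_right hb3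
    fin_cases i
    · exact hi h0
    · exact hi h1
    · exact hi h2
    · exact hi h3
  -- eliminate
  have f1 : r 1 * a2 = - (r 0 * b1) := by linear_combination e1
  have f2 : r 2 * a3 = - (r 1 * b2) := by linear_combination e2
  have f3 : r 3 * a4 = - (r 2 * b3) := by linear_combination e3
  have f0 : r 0 * a1 = - (r 3 * b4) := by linear_combination e0
  have key : r 0 * (a1 * a2 * a3 * a4) = r 0 * (b1 * b2 * b3 * b4) := by
    calc r 0 * (a1 * a2 * a3 * a4) = (r 0 * a1) * a2 * a3 * a4 := by ring
      _ = -(r 3 * a4) * b4 * a2 * a3 := by rw [f0]; ring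
      _ = (r 2 * a3) * b3 * b4 * a2 := by rw [f3]; ring
      _ = -(r 1 * a2) * b2 * b3 * b4 := by rw [f2]; ring
      _ = r 0 * (b1 * b2 * b3 * b4) := by rw [f1]; ring
  exact mul_left_cancel₀ hr0 key

/-- A vector in the span of two independent ones. -/
lemma exists_coeff' (a b c : W) (hab : LinearIndependent K ![a, b])
    (habc : ¬ LinearIndependent K ![a, b, c]) : ∃ s t : K, c = s • a + t • b := by
  rw [Fintype.not_linearIndependent_iff] at habc
  obtain ⟨r, hr, i, hi⟩ := habc
  rw [Fin.sum_univ_three] at hr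
  simp only [Matrix.cons_val_zero, Matrix.cons_val_one, Matrix.cons_val] at hr
  rw [LinearIndependent.pair_iff] at hab
  have h2 : r 2 ≠ 0 := by
    intro h2
    rw [h2, zero_smul, add_zero] at hr
    have := hab _ _ hr
    fin_cases i
    · exact hi this.1
    · exact hi this.2
    · exact hi h2
  refine ⟨-(r 2)⁻¹ * r 0, -(r 2)⁻¹ * r 1, ?_⟩
  have h3 : (r 2) • c = -(r 0 • a) - (r 1 • b) := by
    rw [← sub_eq_zero, ← hr]; abel
  calc c = (r 2)⁻¹ • (r 2) • c := by rw [smul_smul, inv_mul_cancel₀ h2, one_smul]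
    _ = _ := by
      rw [h3, smul_sub, smul_neg, smul_smul, smul_smul]
      simp only [neg_mul, neg_smul]
      abel

/-- The Fano plane forces characteristic two. -/
lemma two_eq_zero_of_fano (v0 v1 v2 : W) (hv : LinearIndependent K ![v0, v1, v2])
    (w01 w02 w12 w : W) (p0 p1 q0 q2 r1 r2 : K) (hp0 : p0 ≠ 0) (hp1 : p1 ≠ 0)
    (hq0 : q0 ≠ 0) (hr1 : r1 ≠ 0) (hr2 : r2 ≠ 0)
    (h01 : w01 = p0 • v0 + p1 • v1) (h02 : w02 = q0 • v0 + q2 • v2)
    (h12 : w12 = r1 • v1 + r2 • v2) (hw : w ≠ 0) (α β α' β' α'' β'' : K)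
    (e1 : w = α • w01 + β • v2) (e2 : w = α' • w02 + β' • v1) (e3 : w = α'' • w12 + β'' • v0)
    (hdep : ¬ LinearIndependent K ![w01, w02, w12]) : (2 : K) = 0 := by
  rw [Fintype.linearIndependent_iff] at hv
  have h12' : α • w01 + β • v2 - (α' • w02 + β' • v1) = 0 := by rw [← e1, ← e2, sub_self]
  have h13' : α • w01 + β • v2 - (α'' • w12 + β'' • v0) = 0 := by rw [← e1, ← e3, sub_self]
  have c1 := hv ![α * p0 - α' * q0, α * p1 - β', β - α' * q2] (by
    rw [Fin.sum_univ_three]
    simp only [Matrix.cons_val_zero, Matrix.cons_val_one, Matrix.cons_val]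
    rw [← h12', h01, h02]
    module)
  have c2 := hv ![α * p0 - β'', α * p1 - α'' * r1, β - α'' * r2] (by
    rw [Fin.sum_univ_three]
    simp only [Matrix.cons_val_zero, Matrix.cons_val_one, Matrix.cons_val]
    rw [← h13', h01, h12]
    module)
  have d1 : α * p0 - α' * q0 = 0 := by simpa using c1 0
  have d3 : β - α' * q2 = 0 := by simpa using c1 2
  have d4 : α * p1 - α'' * r1 = 0 := by simpa using c2 1
  have d5 : β - α'' * r2 = 0 := by simpa using c2 2
  have hα : α ≠ 0 := by
    intro h
    have h' : α' = 0 := by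
      rw [h, zero_mul, zero_sub, neg_eq_zero] at d1
      exact (mul_eq_zero.mp d1).resolve_right hq0
    have h'' : β = 0 := by
      rw [h', zero_mul, sub_zero] at d3
      exact d3
    apply hw
    rw [e1, h, h'', zero_smul, zero_smul, add_zero]
  have hα' : α' ≠ 0 := by
    intro h
    rw [h, zero_mul, sub_zero] at d1
    rcases mul_eq_zero.mp d1 with h1 | h1
    · exact hα h1
    · exact hp0 h1
  have hα'' : α'' ≠ 0 := by
    intro h
    rw [h, zero_mul, sub_zero] at d4
    rcases mul_eq_zero.mp d4 with h1 | h1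
    · exact hα h1
    · exact hp1 h1
  rw [Fintype.not_linearIndependent_iff] at hdep
  obtain ⟨r, hr, i, hi⟩ := hdep
  rw [Fin.sum_univ_three] at hr
  simp only [Matrix.cons_val_zero, Matrix.cons_val_one, Matrix.cons_val] at hr
  have c3 := hv ![r 0 * p0 + r 1 * q0, r 0 * p1 + r 2 * r1, r 1 * q2 + r 2 * r2] (by
    rw [Fin.sum_univ_three]
    simp only [Matrix.cons_val_zero, Matrix.cons_val_one, Matrix.cons_val]
    rw [← hr, h01, h02, h12]
    module)
  have f0 : r 0 * p0 + r 1 * q0 = 0 := by simpa using c3 0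
  have f1 : r 0 * p1 + r 2 * r1 = 0 := by simpa using c3 1
  have f2 : r 1 * q2 + r 2 * r2 = 0 := by simpa using c3 2
  have hr0 : r 0 ≠ 0 := by
    intro h0
    have h1 : r 1 = 0 := by
      rw [h0, zero_mul, zero_add] at f0
      exact (mul_eq_zero.mp f0).resolve_right hq0
    have h2 : r 2 = 0 := by
      rw [h0, zero_mul, zero_add] at f1
      exact (mul_eq_zero.mp f1).resolve_right hr1
    fin_cases i
    · exact hi h0
    · exact hi h1
    · exact hi h2
  have g1 : r 1 * q0 = -(r 0 * p0) := by linear_combination f0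
  have g2 : r 2 * r1 = -(r 0 * p1) := by linear_combination f1
  have g3 : r 2 * r2 = -(r 1 * q2) := by linear_combination f2
  -- r0 * (p0 * r1 * q2) = - r0 * (q0 * p1 * r2)
  have key1 : r 0 * (p0 * r1 * q2 + q0 * p1 * r2) = 0 := by
    have : r 0 * p0 * r1 * q2 = -(r 0 * (q0 * p1 * r2)) := by
      calc r 0 * p0 * r1 * q2 = -(r 1 * q0) * r1 * q2 := by rw [g1]; ring
        _ = -(r 1 * q2) * r1 * q0 := by ring
        _ = (r 2 * r1) * r2 * q0 := by rw [← g3]; ring
        _ = -(r 0 * (q0 * p1 * r2)) := by rw [g2]; ring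
    linear_combination this
  have key2 : p0 * r1 * q2 + q0 * p1 * r2 = 0 := (mul_eq_zero.mp key1).resolve_left hr0
  have key3 : α * α' * α'' * (p0 * r1 * q2 - q0 * p1 * r2) = 0 := by
    have a1 : α * p0 = α' * q0 := by linear_combination d1
    have a2 : α'' * r1 = α * p1 := by linear_combination -d4
    have a3 : α' * q2 = α'' * r2 := by linear_combination d5 - d3
    calc α * α' * α'' * (p0 * r1 * q2 - q0 * p1 * r2)
        = (α * p0) * (α'' * r1) * (α' * q2) - α * α' * α'' * (q0 * p1 * r2) := by ring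
      _ = (α' * q0) * (α * p1) * (α'' * r2) - α * α' * α'' * (q0 * p1 * r2) := by rw [a1, a2, a3]
      _ = 0 := by ring
  have key4 : p0 * r1 * q2 - q0 * p1 * r2 = 0 :=
    (mul_eq_zero.mp key3).resolve_left (mul_ne_zero (mul_ne_zero hα hα') hα'')
  have key5 : (2 : K) * (q0 * p1 * r2) = 0 := by linear_combination key2 - key4
  exact (mul_eq_zero.mp key5).resolve_right (mul_ne_zero (mul_ne_zero hq0 hp1) hr2)

end linear

/-! ### The main argument -/

lemma rep_iff {F K W : Type*} [Field F] [Field K] [AddCommGroup W] [Module K W]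
    (v : Fin 14 → W)
    (h : ∀ S : Set (Fin 14), AlgebraicIndependent F (fun i : S => g F i) ↔
      LinearIndependent K (fun i : S => v i)) {k : ℕ} (e : Fin k → Fin 14)
    (he : Function.Injective e) :
    AlgebraicIndependent F (fun i => g F (e i)) ↔ LinearIndependent K (fun i => v (e i)) := by
  have h1 := h (Set.range e)
  rw [← algebraicIndependent_equiv (Equiv.ofInjective e he),
    ← linearIndependent_equiv (Equiv.ofInjective e he)] at h1
  exact h1

/-- Dependence of a set of forms from an explicit relation. -/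
lemma dep_of {F K W : Type*} [Field F] [Field K] [AddCommGroup W] [Module K W]
    (v : Fin 14 → W)
    (h : ∀ S : Set (Fin 14), AlgebraicIndependent F (fun i : S => g F i) ↔
      LinearIndependent K (fun i : S => v i)) {k : ℕ} (e : Fin k → Fin 14)
    (he : Function.Injective e) (p : MvPolynomial (Fin k) F) (x : Fin k → F)
    (hp : eval x p ≠ 0) (hrel : aeval (fun i => g F (e i)) p = 0) :
    ¬ LinearIndependent K (fun i => v (e i)) := by
  rw [← rep_iff v h e he]
  refine not_algInd F _ p ?_ hrel
  rintro rfl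
  exact hp (map_zero _)

lemma ne_zero_g (F : Type*) [Field F] (i : Fin 14) : g F i ≠ 0 := by
  fin_cases i
  · exact (ind_squares F).ne_zero 0
  · exact (ind_squares F).ne_zero 1
  · exact (ind_squares F).ne_zero 2
  · exact (ind_squares F).ne_zero 3
  · exact (ind_pair F 0 1 (by decide)).ne_zero 1
  · exact (ind_pair F 0 2 (by decide)).ne_zero 1
  · exact (ind_pair F 0 3 (by decide)).ne_zero 1
  · exact (ind_pair F 1 2 (by decide)).ne_zero 1
  · exact (ind_pair F 1 3 (by decide)).ne_zero 1
  · exact (ind_pair F 2 3 (by decide)).ne_zero 1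
  · exact (ind_sum F 0 1 (by decide)).ne_zero 1
  · exact (ind_sum F 0 2 (by decide)).ne_zero 1
  · exact (ind_sum F 1 2 (by decide)).ne_zero 1
  · exact (ind_three F).ne_zero 0

lemma homogeneous_g (F : Type*) [Field F] (i : Fin 14) : (g F i).IsHomogeneous 2 := by
  have hX : ∀ j : Fin 4, (X j : MvPolynomial (Fin 4) F).IsHomogeneous 1 :=
    fun j => isHomogeneous_X F j
  fin_cases i
  · exact (hX 0).pow 2
  · exact (hX 1).pow 2
  · exact (hX 2).pow 2
  · exact (hX 3).pow 2
  · exact (hX 0).mul (hX 1)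
  · exact (hX 0).mul (hX 2)
  · exact (hX 0).mul (hX 3)
  · exact (hX 1).mul (hX 2)
  · exact (hX 1).mul (hX 3)
  · exact (hX 2).mul (hX 3)
  · exact ((hX 0).add (hX 1)).pow 2
  · exact ((hX 0).add (hX 2)).pow 2
  · exact ((hX 1).add (hX 2)).pow 2
  · exact (((hX 0).add (hX 1)).add (hX 2)).pow 2

section final

variable {F K W : Type*} [Field F] [Field K] [AddCommGroup W] [Module K W]
  (v : Fin 14 → W)
  (h : ∀ S : Set (Fin 14), AlgebraicIndependent F (fun i : S => g F i) ↔
    LinearIndependent K (fun i : S => v i))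

include h

lemma li_two (a b : Fin 14) (hab : a ≠ b) (hind : AlgebraicIndependent F ![g F a, g F b]) :
    LinearIndependent K ![v a, v b] := by
  have h1 := (rep_iff v h ![a, b] (by
    intro x y hxy
    fin_cases x <;> fin_cases y <;> simp_all)).mp (by
      convert hind using 1
      funext i
      fin_cases i <;> rfl)
  convert h1 using 1
  funext i
  fin_cases i <;> rfl

lemma li_squares : LinearIndependent K ![v 0, v 1, v 2, v 3] := by
  have h1 := (rep_iff v h ![0, 1, 2, 3] (by decide)).mp (by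
    have h2 := ind_squares F
    convert h2 using 1
    funext i
    fin_cases i <;> rfl)
  convert h1 using 1
  funext i
  fin_cases i <;> rfl

/-- The vector of `x_i x_j` lies on the line of those of `x_i²` and `x_j²`. -/
lemma coeff_mul (a b c : Fin 14) (i j : Fin 4) (hij : i ≠ j) (hinj : Function.Injective ![a, b, c])
    (ha : g F a = X i ^ 2) (hb : g F b = X j ^ 2) (hc : g F c = X i * X j) :
    ∃ s t : K, s ≠ 0 ∧ t ≠ 0 ∧ v c = s • v a + t • v b := by
  have hab : a ≠ b := fun e => absurd (@hinj 0 1 (by simpa using e)) (by decide)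
  have hac : a ≠ c := fun e => absurd (@hinj 0 2 (by simpa using e)) (by decide)
  have hbc : b ≠ c := fun e => absurd (@hinj 1 2 (by simpa using e)) (by decide)
  refine exists_coeff _ _ _ (li_two v h a b hab ?_) (li_two v h a c hac ?_)
    (li_two v h b c hbc ?_) ?_
  · rw [ha, hb]
    have h2 := (ind_squares F).comp ![i, j] (by
      intro x y hxy
      fin_cases x <;> fin_cases y <;> simp_all)
    convert h2 using 1
    funext l
    fin_cases l <;> rfl
  · rw [ha, hc]
    exact ind_pair F i j hij
  · rw [hb, hc, mul_comm]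
    exact ind_pair F j i hij.symm
  · have h1 := dep_of v h ![a, b, c] hinj (X 0 * X 1 - X 2 ^ 2) ![1, 1, 0] (by simp) (by
      simp [ha, hb, hc]
      ring)
    convert h1 using 2
    funext l
    fin_cases l <;> rfl

lemma coeff_add [CharP F 2] (a b c : Fin 14) (i j : Fin 4) (hij : i ≠ j)
    (hinj : Function.Injective ![a, b, c])
    (ha : g F a = X i ^ 2) (hb : g F b = X j ^ 2) (hc : g F c = (X i + X j) ^ 2) :
    ∃ s t : K, s ≠ 0 ∧ t ≠ 0 ∧ v c = s • v a + t • v b := by
  have hab : a ≠ b := fun e => absurd (@hinj 0 1 (by simpa using e)) (by decide)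
  have hac : a ≠ c := fun e => absurd (@hinj 0 2 (by simpa using e)) (by decide)
  have hbc : b ≠ c := fun e => absurd (@hinj 1 2 (by simpa using e)) (by decide)
  refine exists_coeff _ _ _ (li_two v h a b hab ?_) (li_two v h a c hac ?_)
    (li_two v h b c hbc ?_) ?_
  · rw [ha, hb]
    have h2 := (ind_squares F).comp ![i, j] (by
      intro x y hxy
      fin_cases x <;> fin_cases y <;> simp_all)
    convert h2 using 1
    funext l
    fin_cases l <;> rfl
  · rw [ha, hc]
    exact ind_sum F i j hij
  · rw [hb, hc, add_comm]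
    exact ind_sum F j i hij.symm
  · have h1 := dep_of v h ![a, b, c] hinj (X 0 + X 1 - X 2) ![1, 0, 0] (by simp) (by
      simp [ha, hb, hc, CharTwo.add_sq])
    convert h1 using 2
    funext l
    fin_cases l <;> rfl

/-- Lines through the seventh point of the Fano plane. -/
lemma coeff_three [CharP F 2] (a b c : Fin 14) (i j k : Fin 4) (hij : i ≠ j) (hik : i ≠ k)
    (hinj : Function.Injective ![a, b, c])
    (ha : g F a = (X i + X j) ^ 2) (hb : g F b = X k ^ 2) (hc : g F c = (X i + X j + X k) ^ 2) :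
    ∃ s t : K, v c = s • v a + t • v b := by
  have hab : a ≠ b := fun e => absurd (@hinj 0 1 (by simpa using e)) (by decide)
  refine exists_coeff' _ _ _ (li_two v h a b hab ?_) ?_
  · rw [ha, hb]
    exact ind_sum' F i j k hij hik
  · have h1 := dep_of v h ![a, b, c] hinj (X 0 + X 1 - X 2) ![1, 0, 0] (by simp) (by
      simp [ha, hb, hc, CharTwo.add_sq])
    convert h1 using 2
    funext l
    fin_cases l <;> rfl

lemma two_eq_zero [CharP F 2] : (2 : K) = 0 := by
  have hli := li_squares v h
  have hli3 : LinearIndependent K ![v 0, v 1, v 2] := by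
    have h2 := hli.comp ![0, 1, 2] (by decide)
    convert h2 using 1
    funext l
    fin_cases l <;> rfl
  obtain ⟨p0, p1, hp0, hp1, h01⟩ := coeff_add v h 0 1 10 0 1 (by decide) (by decide) rfl rfl rfl
  obtain ⟨q0, q2, hq0, hq2, h02⟩ := coeff_add v h 0 2 11 0 2 (by decide) (by decide) rfl rfl rfl
  obtain ⟨r1, r2, hr1, hr2, h12⟩ := coeff_add v h 1 2 12 1 2 (by decide) (by decide) rfl rfl rfl
  obtain ⟨α, β, e1⟩ := coeff_three v h 10 2 13 0 1 2 (by decide) (by decide) (by decide)
    rfl rfl rfl
  obtain ⟨α', β', e2⟩ := coeff_three v h 11 1 13 0 2 1 (by decide) (by decide) (by decide)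
    rfl rfl (by change (X 0 + X 1 + X 2) ^ 2 = _; ring)
  obtain ⟨α'', β'', e3⟩ := coeff_three v h 12 0 13 1 2 0 (by decide) (by decide) (by decide)
    rfl rfl (by change (X 0 + X 1 + X 2) ^ 2 = _; ring)
  have hw : v 13 ≠ 0 := by
    have h1 := (rep_iff v h ![13] (by decide)).mp (by
      have h2 := ind_three F
      convert h2 using 1
      funext i
      fin_cases i
      rfl)
    exact h1.ne_zero 0
  refine two_eq_zero_of_fano (v 0) (v 1) (v 2) hli3 (v 10) (v 11) (v 12) (v 13) p0 p1 q0 q2 r1 r2
    hp0 hp1 hq0 hr1 hr2 h01 h02 h12 hw α β α' β' α'' β'' e1 e2 e3 ?_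
  have h1 := dep_of v h ![10, 11, 12] (by decide) (X 0 + X 1 + X 2) ![1, 0, 0] (by simp) (by
    simp only [map_add, aeval_X]
    change (X 0 + X 1) ^ 2 + (X 0 + X 2) ^ 2 + (X 1 + X 2) ^ 2 = 0
    rw [CharTwo.add_sq, CharTwo.add_sq, CharTwo.add_sq]
    have : ∀ a b c : MvPolynomial (Fin 4) F, a + b + (a + c) + (b + c) = 0 := by
      intro a b c
      have h2 : (2 : MvPolynomial (Fin 4) F) = 0 := CharTwo.two_eq_zero
      linear_combination (a + b + c) * h2
    exact this _ _ _)
  convert h1 using 2
  funext l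
  fin_cases l <;> rfl

lemma contradiction_of_rep (h2 : (2 : K) = 0) : False := by
  have hli := li_squares v h
  obtain ⟨a01, b01, ha01, hb01, h01⟩ := coeff_mul v h 0 1 4 0 1 (by decide) (by decide) rfl rfl rfl
  obtain ⟨a02, b02, ha02, hb02, h02⟩ := coeff_mul v h 0 2 5 0 2 (by decide) (by decide) rfl rfl rfl
  obtain ⟨a03, b03, ha03, hb03, h03⟩ := coeff_mul v h 0 3 6 0 3 (by decide) (by decide) rfl rfl rfl
  obtain ⟨a12, b12, ha12, hb12, h12⟩ := coeff_mul v h 1 2 7 1 2 (by decide) (by decide) rfl rfl rfl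
  obtain ⟨a13, b13, ha13, hb13, h13⟩ := coeff_mul v h 1 3 8 1 3 (by decide) (by decide) rfl rfl rfl
  obtain ⟨a23, b23, ha23, hb23, h23⟩ := coeff_mul v h 2 3 9 2 3 (by decide) (by decide) rfl rfl rfl
  have hA : a01 * a12 * a23 * b03 = b01 * b12 * b23 * a03 := by
    refine four_cycle (v 0) (v 1) (v 2) (v 3) hli _ _ _ _ _ _ _ _ hb23 ha03 ha12 ?_
    have h1 := dep_of v h ![4, 7, 9, 6] (by decide) (X 0 * X 2 - X 1 * X 3) ![1, 0, 1, 0]
      (by simp) (by
        simp only [map_sub, map_mul, aeval_X]
        change (X 0 * X 1) * (X 2 * X 3) - (X 1 * X 2) * (X 0 * X 3) = 0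
        ring)
    convert h1 using 2
    funext l
    fin_cases l
    · exact h01.symm
    · exact h12.symm
    · exact h23.symm
    · exact (add_comm _ _).trans h03.symm
  have hB : a01 * a13 * b23 * b02 = b01 * b13 * a23 * a02 := by
    refine four_cycle (v 0) (v 1) (v 3) (v 2) ?_ _ _ _ _ _ _ _ _ ha23 ha02 ha13 ?_
    · have h2 := hli.comp ![0, 1, 3, 2] (by decide)
      convert h2 using 1
      funext l
      fin_cases l <;> rfl
    have h1 := dep_of v h ![4, 8, 9, 5] (by decide) (X 0 * X 2 - X 1 * X 3) ![1, 0, 1, 0]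
      (by simp) (by
        simp only [map_sub, map_mul, aeval_X]
        change (X 0 * X 1) * (X 2 * X 3) - (X 1 * X 3) * (X 0 * X 2) = 0
        ring)
    convert h1 using 2
    funext l
    fin_cases l
    · exact h01.symm
    · exact h13.symm
    · exact (add_comm _ _).trans h23.symm
    · exact (add_comm _ _).trans h02.symm
  have hC : a02 * b12 * a13 * b03 = b02 * a12 * b13 * a03 := by
    refine four_cycle (v 0) (v 2) (v 1) (v 3) ?_ _ _ _ _ _ _ _ _ hb13 ha03 hb12 ?_
    · have h2 := hli.comp ![0, 2, 1, 3] (by decide)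
      convert h2 using 1
      funext l
      fin_cases l <;> rfl
    have h1 := dep_of v h ![5, 7, 8, 6] (by decide) (X 0 * X 2 - X 1 * X 3) ![1, 0, 1, 0]
      (by simp) (by
        simp only [map_sub, map_mul, aeval_X]
        change (X 0 * X 2) * (X 1 * X 3) - (X 1 * X 2) * (X 0 * X 3) = 0
        ring)
    convert h1 using 2
    funext l
    fin_cases l
    · exact h02.symm
    · exact (add_comm _ _).trans h12.symm
    · exact h13.symm
    · exact (add_comm _ _).trans h03.symm
  -- combine
  have hD : (a23 * b23) * (a01 ^ 2 * a12 * a13 * b03 * b02) =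
      (a23 * b23) * (b01 ^ 2 * b12 * b13 * a03 * a02) := by
    calc (a23 * b23) * (a01 ^ 2 * a12 * a13 * b03 * b02)
        = (a01 * a12 * a23 * b03) * (a01 * a13 * b23 * b02) := by ring
      _ = (b01 * b12 * b23 * a03) * (b01 * b13 * a23 * a02) := by rw [hA, hB]
      _ = _ := by ring
  have hD' : a01 ^ 2 * a12 * a13 * b03 * b02 = b01 ^ 2 * b12 * b13 * a03 * a02 :=
    mul_left_cancel₀ (mul_ne_zero ha23 hb23) hD
  have hE : (b13 * a03) * (a01 * a12 * b02) ^ 2 = (b13 * a03) * (b01 * b12 * a02) ^ 2 := by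
    calc (b13 * a03) * (a01 * a12 * b02) ^ 2
        = a01 ^ 2 * a12 * b02 * (b02 * a12 * b13 * a03) := by ring
      _ = a01 ^ 2 * a12 * b02 * (a02 * b12 * a13 * b03) := by rw [hC]
      _ = (a01 ^ 2 * a12 * a13 * b03 * b02) * (a02 * b12) := by ring
      _ = (b01 ^ 2 * b12 * b13 * a03 * a02) * (a02 * b12) := by rw [hD']
      _ = _ := by ring
  have hE' : (a01 * a12 * b02) ^ 2 = (b01 * b12 * a02) ^ 2 :=
    mul_left_cancel₀ (mul_ne_zero hb13 ha03) hE
  have hF : (a01 * a12 * b02 + b01 * b12 * a02) ^ 2 = 0 := by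
    have : (a01 * a12 * b02 + b01 * b12 * a02) ^ 2 = (a01 * a12 * b02) ^ 2 +
        (b01 * b12 * a02) ^ 2 + 2 * ((a01 * a12 * b02) * (b01 * b12 * a02)) := by ring
    rw [this, h2, zero_mul, add_zero, hE']
    have h3 : (b01 * b12 * a02) ^ 2 + (b01 * b12 * a02) ^ 2 = 2 * (b01 * b12 * a02) ^ 2 := by ring
    rw [h3, h2, zero_mul]
  have hG : a01 * a12 * b02 + b01 * b12 * a02 = 0 := pow_eq_zero_iff (two_ne_zero) |>.mp hF
  -- the triangle is independent
  have hT : LinearIndependent K ![v 4, v 7, v 5] := by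
    have h1 := (rep_iff v h ![4, 7, 5] (by decide)).mp (by
      have h2 := ind_triangle F
      convert h2 using 1
      funext i
      fin_cases i <;> rfl)
    convert h1 using 1
    funext i
    fin_cases i <;> rfl
  rw [Fintype.linearIndependent_iff] at hT
  have h3 := hT ![a12 * a02, -(b01 * a02), -(a01 * a12)] (by
    rw [Fin.sum_univ_three]
    simp only [Matrix.cons_val_zero, Matrix.cons_val_one, Matrix.cons_val]
    rw [h01, h12, h02]
    have h4 : (a12 * a02) • (a01 • v 0 + b01 • v 1) + (-(b01 * a02)) • (a12 • v 1 + b12 • v 2) +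
        (-(a01 * a12)) • (a02 • v 0 + b02 • v 2) =
        (-(a01 * a12 * b02 + b01 * b12 * a02)) • v 2 := by
      module
    rw [h4, hG, neg_zero, zero_smul]) 0
  simp only [Matrix.cons_val_zero] at h3
  exact (mul_ne_zero ha12 ha02) h3

end final

/-- **A negative answer to Q2.**  Over every field `F` of characteristic two there is a finite
family of quadratic forms whose algebraic matroid is not representable over any field. -/
theorem result (F : Type u) [Field F] [CharP F 2] :
    ∃ (m N : ℕ) (f : Fin N → MvPolynomial (Fin m) F),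
      (∀ i, f i ≠ 0 ∧ (f i).IsHomogeneous 2) ∧
      ∀ (K : Type v) [Field K] (W : Type w) [AddCommGroup W] [Module K W] (x : Fin N → W),
        ¬ ∀ S : Set (Fin N), AlgebraicIndependent F (fun i : S => f i) ↔
          LinearIndependent K (fun i : S => x i) := by
  refine ⟨4, 14, g F, fun i => ⟨ne_zero_g F i, homogeneous_g F i⟩, ?_⟩
  intro K _ W _ _ v h
  exact contradiction_of_rep v h (two_eq_zero v h)

end Pool.Agent.Results.MP_188fab_co.QuadricsNotRepresentable
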